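import Pool.Agent.EGF.StmtsQ

/-!
# EGF row SG1: typical vertices (helper80)
-/

set_option autoImplicit false

open Finset

namespace Pool.Agent.EGF.H80

section Count

variable {V : Type}

theorem cnt1 (X Y : Finset V) (r : V → V → Prop) [∀ x y, Decidable (r x y)] :
    ((X ×ˢ Y).filter fun p => r p.1 p.2).card = ∑ x ∈ X, (Y.filter fun y => r x y).card := by
  rw [Finset.card_filter, Finset.sum_product]
  refine Finset.sum_congr rfl fun x _ => ?_
  rw [Finset.card_filter]

theorem cnt2 (X Y : Finset V) (r : V → V → Prop) [∀ x y, Decidable (r x y)] :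
    ((X ×ˢ Y).filter fun p => r p.1 p.2).card = ∑ y ∈ Y, (X.filter fun x => r x y).card := by
  rw [Finset.card_filter, Finset.sum_product_right]
  refine Finset.sum_congr rfl fun x _ => ?_
  rw [Finset.card_filter]

/-- few `x` which are related to more than `σ |Y|` elements of `Y` -/
theorem markov (X Y : Finset V) (r : V → V → Prop) [∀ x y, Decidable (r x y)] (σ : ℝ)
    (hσ : 0 < σ) (hY : Y.Nonempty)
    (h : ∀ y ∈ Y, ((X.filter fun x => r x y).card : ℝ) ≤ σ ^ 2 * X.card) :
    ((X.filter fun x => σ * Y.card < ((Y.filter fun y => r x y).card : ℝ)).card : ℝ) ≤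
      σ * X.card := by
  classical
  set M := X.filter fun x => σ * Y.card < ((Y.filter fun y => r x y).card : ℝ) with hM
  have hYp : (0 : ℝ) < Y.card := by exact_mod_cast hY.card_pos
  have h1 : (M.card : ℝ) * (σ * Y.card) ≤ ∑ x ∈ M, ((Y.filter fun y => r x y).card : ℝ) := by
    rw [← nsmul_eq_mul]
    refine Finset.card_nsmul_le_sum M _ _ fun x hx => ?_
    exact (Finset.mem_filter.mp hx).2.le
  have h2 : ∑ x ∈ M, ((Y.filter fun y => r x y).card : ℝ) ≤
      ∑ x ∈ X, ((Y.filter fun y => r x y).card : ℝ) :=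
    Finset.sum_le_sum_of_subset_of_nonneg (Finset.filter_subset _ _)
      fun _ _ _ => Nat.cast_nonneg _
  have h3 : ∑ x ∈ X, ((Y.filter fun y => r x y).card : ℝ) =
      ∑ y ∈ Y, ((X.filter fun x => r x y).card : ℝ) := by
    have := (cnt1 X Y r).symm.trans (cnt2 X Y r)
    exact_mod_cast this
  have h4 : ∑ y ∈ Y, ((X.filter fun x => r x y).card : ℝ) ≤ Y.card * (σ ^ 2 * X.card) := by
    rw [← nsmul_eq_mul]
    exact Finset.sum_le_card_nsmul Y _ _ h
  have h5 : (M.card : ℝ) * (σ * Y.card) ≤ (σ * X.card) * (σ * Y.card) := by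
    calc (M.card : ℝ) * (σ * Y.card) ≤ Y.card * (σ ^ 2 * X.card) :=
          h1.trans (h2.trans (h3.le.trans h4))
      _ = (σ * X.card) * (σ * Y.card) := by ring
  exact le_of_mul_le_mul_right h5 (mul_pos hσ hYp)

end Count

section Robust

variable {V : Type} [DecidableEq V] {k : ℕ} {c : V → V → Fin k} {e : Fin k} {A B : Finset V}
  {ρ q : ℝ}

theorem rob_left (hR : Rob c e A B ρ q) (hA : 0 < ρ * A.card) {B' : Finset V} (hB : B' ⊆ B)
    (hB' : ρ * B.card ≤ (B'.card : ℝ)) :
    ((A.filter fun x => ((B'.filter fun y => c x y = e).card : ℝ) < q * B'.card).card : ℝ) <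
      ρ * A.card := by
  by_contra hcon
  rw [not_lt] at hcon
  set A' := A.filter fun x => ((B'.filter fun y => c x y = e).card : ℝ) < q * B'.card with hA'
  have h1 := hR A' (Finset.filter_subset _ _) B' hB hcon hB'
  rw [cnt1 A' B' (fun x y => c x y = e)] at h1
  have hne : A'.Nonempty := by
    rw [← Finset.card_pos]
    have : (0 : ℝ) < A'.card := lt_of_lt_of_le hA hcon
    exact_mod_cast this
  have h2 : ∑ x ∈ A', ((B'.filter fun y => c x y = e).card : ℝ) < ∑ _x ∈ A', q * B'.card :=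
    Finset.sum_lt_sum_of_nonempty hne fun x hx => (Finset.mem_filter.mp hx).2
  rw [Finset.sum_const, nsmul_eq_mul] at h2
  push_cast at h1
  linarith [h1, h2, mul_comm (A'.card : ℝ) (q * B'.card),
    (by ring : q * ((A'.card : ℝ) * B'.card) = (A'.card : ℝ) * (q * B'.card))]

theorem rob_right (hR : Rob c e A B ρ q) (hB : 0 < ρ * B.card) {A' : Finset V} (hA : A' ⊆ A)
    (hA' : ρ * A.card ≤ (A'.card : ℝ)) :
    ((B.filter fun y => ((A'.filter fun x => c x y = e).card : ℝ) < q * A'.card).card : ℝ) <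
      ρ * B.card := by
  by_contra hcon
  rw [not_lt] at hcon
  set B' := B.filter fun y => ((A'.filter fun x => c x y = e).card : ℝ) < q * A'.card with hB'
  have h1 := hR A' hA B' (Finset.filter_subset _ _) hA' hcon
  rw [cnt2 A' B' (fun x y => c x y = e)] at h1
  have hne : B'.Nonempty := by
    rw [← Finset.card_pos]
    have : (0 : ℝ) < B'.card := lt_of_lt_of_le hB hcon
    exact_mod_cast this
  have h2 : ∑ y ∈ B', ((A'.filter fun x => c x y = e).card : ℝ) < ∑ _y ∈ B', q * A'.card :=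
    Finset.sum_lt_sum_of_nonempty hne fun x hx => (Finset.mem_filter.mp hx).2
  rw [Finset.sum_const, nsmul_eq_mul] at h2
  push_cast at h1
  linarith [h1, h2, (by ring : q * ((A'.card : ℝ) * B'.card) = (B'.card : ℝ) * (q * A'.card))]

theorem reg_left {C : Finset (Fin k)} {lam : ℝ} (hR : Reg c C A B lam ρ)
    (hA : 0 < ρ * A.card) (hρ : ρ ≤ 1) :
    ((A.filter fun x => lam * B.card < ((B.filter fun y => c x y ∉ C).card : ℝ)).card : ℝ) <
      ρ * A.card := by
  by_contra hcon
  rw [not_lt] at hcon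
  set A' := A.filter fun x => lam * B.card < ((B.filter fun y => c x y ∉ C).card : ℝ) with hA'
  have hBB : ρ * (B.card : ℝ) ≤ B.card := by
    have : (0 : ℝ) ≤ B.card := Nat.cast_nonneg _
    nlinarith
  have h1 := hR A' (Finset.filter_subset _ _) B (Finset.Subset.refl _) hcon hBB
  unfold ex at h1
  rw [cnt1 A' B (fun x y => c x y ∉ C)] at h1
  have hne : A'.Nonempty := by
    rw [← Finset.card_pos]
    have : (0 : ℝ) < A'.card := lt_of_lt_of_le hA hcon
    exact_mod_cast this
  have h2 : ∑ _x ∈ A', lam * B.card < ∑ x ∈ A', ((B.filter fun y => c x y ∉ C).card : ℝ) :=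
    Finset.sum_lt_sum_of_nonempty hne fun x hx => (Finset.mem_filter.mp hx).2
  rw [Finset.sum_const, nsmul_eq_mul] at h2
  push_cast at h1
  linarith [h1, h2, (by ring : lam * ((A'.card : ℝ) * B.card) = (A'.card : ℝ) * (lam * B.card))]

end Robust

section Main

variable {V : Type} [DecidableEq V] {k : ℕ} {c : V → V → Fin k}

theorem al_inter (e : Fin k) (B : Finset V) (x : V) {T : Finset V} (hT : T ⊆ B) :
    al c e B x ∩ T = T.filter fun z => c x z = e := by
  ext z
  simp only [al, Finset.mem_inter, Finset.mem_filter]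
  constructor
  · rintro ⟨⟨-, h2⟩, h3⟩
    exact ⟨h3, h2⟩
  · rintro ⟨h1, h2⟩
    exact ⟨⟨hT h1, h2⟩, h1⟩

theorem inter_al (hsym : ∀ x y, c x y = c y x) (e : Fin k) (A : Finset V) (y : V)
    {T : Finset V} (hT : T ⊆ A) :
    T ∩ al c e A y = T.filter fun z => c z y = e := by
  ext z
  simp only [al, Finset.mem_inter, Finset.mem_filter]
  constructor
  · rintro ⟨h1, -, h3⟩
    exact ⟨h1, (hsym z y).trans h3⟩
  · rintro ⟨h1, h2⟩
    exact ⟨h1, hT h1, (hsym y z).trans h2⟩

theorem exists_col (e : Fin k) (A : Finset V) (t : ℝ) :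
    ∃ a : V → Fin k, ∀ x ∈ maj c A t, t * A.card ≤ ((nb c A (a x) x).card : ℝ) := by
  classical
  have hex : ∀ x, ∃ a : Fin k, x ∈ maj c A t → t * A.card ≤ ((nb c A a x).card : ℝ) := by
    intro x
    by_cases hx : x ∈ maj c A t
    · obtain ⟨-, a, ha⟩ := Finset.mem_filter.mp hx
      exact ⟨a, fun _ => ha⟩
    · exact ⟨e, fun h => absurd h hx⟩
  choose a ha using hex
  exact ⟨a, fun x hx => ha x hx⟩

theorem exists_fiber (e : Fin k) (W : Finset V) (a : V → Fin k) :
    ∃ a0 : Fin k, (W.card : ℝ) / k ≤ ((W.filter fun x => a x = a0).card : ℝ) := by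
  have hk : (0 : ℝ) < k := by
    have : 0 < k := Fin.pos e
    exact_mod_cast this
  have h1 : ∑ _a0 : Fin k, (W.card : ℝ) / k ≤
      ∑ a0 : Fin k, ((W.filter fun x => a x = a0).card : ℝ) := by
    rw [Finset.sum_const, Finset.card_univ, Fintype.card_fin, nsmul_eq_mul]
    have h2 : W.card = ∑ a0 : Fin k, (W.filter fun x => a x = a0).card :=
      Finset.card_eq_sum_card_fiberwise fun x _ => Finset.mem_univ (a x)
    have h3 : (W.card : ℝ) = ∑ a0 : Fin k, ((W.filter fun x => a x = a0).card : ℝ) := by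
      exact_mod_cast h2
    rw [← h3]
    rw [mul_div_cancel₀ _ hk.ne']
  obtain ⟨a0, -, h⟩ := Finset.exists_le_of_sum_le ⟨e, Finset.mem_univ e⟩ h1
  exact ⟨a0, h⟩

/-- **SG1** -/
theorem sg1 (hmaj : MajStmt) (hent : EntStmt) : Sg1Stmt := by
  intro V _ k c U A B C1 e s L δ q ρ lam hsym hL hs hflat hAU hBU hA8 hB8 hq hδ hρ hρ1 hρs hρδ
    hlam hrob hreg
  classical
  have hs1 : (33 : ℝ) ≤ s := by linarith
  have hs0 : (0 : ℝ) < s := by linarith
  set t : ℝ := 1 / (s : ℝ) ^ 2 with ht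
  have ht0 : 0 < t := by positivity
  have hAp : (0 : ℝ) < A.card := by exact_mod_cast (by omega : 0 < A.card)
  have hBp : (0 : ℝ) < B.card := by exact_mod_cast (by omega : 0 < B.card)
  have hρA : 0 < ρ * A.card := mul_pos hρ hAp
  have hρB : 0 < ρ * B.card := mul_pos hρ hBp
  have hρ1' : ρ ≤ 1 := by linarith
  have hfA : Flat c A s (L * s) := fun S hS h => hflat S (hS.trans hAU) h
  have hfB : Flat c B s (L * s) := fun S hS h => hflat S (hS.trans hBU) h
  have hmA := hmaj V k c A s L hsym hfA hL hs hA8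
  have hmB := hmaj V k c B s L hsym hfB hL hs hB8
  rw [← ht] at hmA hmB
  have hA0A : maj c A t ⊆ A := Finset.filter_subset _ _
  have hB0B : maj c B t ⊆ B := Finset.filter_subset _ _
  obtain ⟨a, ha⟩ := exists_col (c := c) e A t
  obtain ⟨b, hb⟩ := exists_col (c := c) e B t
  set A0 := maj c A t with hA0
  set B0 := maj c B t with hB0
  have hB0p : (0 : ℝ) < B0.card := by linarith
  have hB0ne : B0.Nonempty := by
    rw [← Finset.card_pos]
    exact_mod_cast hB0p
  have hσ : 0 < √ρ := Real.sqrt_pos.mpr hρ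
  have hσ2 : √ρ ^ 2 = ρ := Real.sq_sqrt hρ.le
  have hσs : √ρ ≤ 1 / 30 := by
    rw [Real.sqrt_le_left (by norm_num)]
    linarith
  have hnbA : ∀ x (a' : Fin k), nb c A a' x ⊆ A := fun x a' => Finset.filter_subset _ _
  have hnbB : ∀ x (a' : Fin k), nb c B a' x ⊆ B := fun x a' => Finset.filter_subset _ _
  -- the relation `R`
  let R : V → V → Prop := fun x y =>
    (((nb c B (b y) y).filter fun z => c x z = e).card : ℝ) < q * (nb c B (b y) y).card
  have hR : ∀ y ∈ B0, ((A.filter fun x => R x y).card : ℝ) ≤ √ρ ^ 2 * A.card := by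
    intro y hy
    rw [hσ2]
    refine (rob_left hrob hρA (hnbB y (b y)) ?_).le
    refine le_trans ?_ (hb y hy)
    exact mul_le_mul_of_nonneg_right hρs hBp.le
  set M2 := A.filter fun x => √ρ * B0.card < ((B0.filter fun y => R x y).card : ℝ) with hM2
  have hM2c : (M2.card : ℝ) ≤ √ρ * A.card := markov A B0 R (√ρ) hσ hB0ne hR
  set M3 := A.filter fun x => ((B.filter fun y => c x y = e).card : ℝ) < q * B.card with hM3
  have hBB : ρ * (B.card : ℝ) ≤ B.card := by nlinarith
  have hM3c : (M3.card : ℝ) < ρ * A.card := rob_left hrob hρA (Finset.Subset.refl B) hBB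
  set M4 := A.filter fun x => lam * B.card < ((B.filter fun y => c x y ∉ C1).card : ℝ) with hM4
  have hM4c : (M4.card : ℝ) < ρ * A.card := reg_left hreg hρA hρ1'
  set A1 := ((A0 \ M2) \ M3) \ M4 with hA1
  have hA1A0 : A1 ⊆ A0 := by
    refine (Finset.sdiff_subset).trans ((Finset.sdiff_subset).trans Finset.sdiff_subset)
  have hA1c : (A.card : ℝ) ≤ 8 * A1.card := by
    have h1 : A0.card ≤ (A0 \ M2).card + M2.card := Finset.card_le_card_sdiff_add_card
    have h2 : (A0 \ M2).card ≤ ((A0 \ M2) \ M3).card + M3.card :=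
      Finset.card_le_card_sdiff_add_card
    have h3 : ((A0 \ M2) \ M3).card ≤ A1.card + M4.card := Finset.card_le_card_sdiff_add_card
    have h4 : (A0.card : ℝ) ≤ A1.card + M4.card + M3.card + M2.card := by
      exact_mod_cast (by omega : A0.card ≤ A1.card + M4.card + M3.card + M2.card)
    have h5 : √ρ * (A.card : ℝ) ≤ 1 / 30 * A.card := mul_le_mul_of_nonneg_right hσs hAp.le
    have h6 : ρ * (A.card : ℝ) ≤ 1 / 1000 * A.card := mul_le_mul_of_nonneg_right hρ1 hAp.le
    linarith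
  have hA1p : (0 : ℝ) < A1.card := by linarith
  have hA1ne : A1.Nonempty := by
    rw [← Finset.card_pos]
    exact_mod_cast hA1p
  have hA1m : ∀ x ∈ A1, x ∈ A0 ∧ x ∈ A ∧ x ∉ M2 ∧ x ∉ M3 ∧ x ∉ M4 := by
    intro x hx
    obtain ⟨h1, h4⟩ := Finset.mem_sdiff.mp hx
    obtain ⟨h1, h3⟩ := Finset.mem_sdiff.mp h1
    obtain ⟨h1, h2⟩ := Finset.mem_sdiff.mp h1
    exact ⟨h1, hA0A h1, h2, h3, h4⟩
  -- the sets of colours
  let Bi : Fin k → Finset V := fun i => B0.filter fun y => i ∈ star c U y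
  have hBi : ∀ i, Bi i ⊆ B := fun i => (Finset.filter_subset _ _).trans hB0B
  set Γ := (pal c U).filter fun i => δ * B.card ≤ ((Bi i).card : ℝ) with hΓ
  let S : Fin k → Finset V := fun i => A.filter fun x =>
    q * (Bi i).card ≤ (((Bi i).filter fun y => c x y = e).card : ℝ)
  have hS : ∀ i ∈ Γ, (1 - 8 * ρ) * A1.card ≤ ((A1 ∩ S i).card : ℝ) := by
    intro i hi
    have h1 := (Finset.mem_filter.mp hi).2
    have h2 : ρ * B.card ≤ ((Bi i).card : ℝ) :=
      le_trans (mul_le_mul_of_nonneg_right hρδ hBp.le) h1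
    have h3 := rob_left hrob hρA (hBi i) h2
    have h4 : A1 \ S i ⊆ A.filter fun x =>
        (((Bi i).filter fun y => c x y = e).card : ℝ) < q * (Bi i).card := by
      intro x hx
      obtain ⟨h5, h6⟩ := Finset.mem_sdiff.mp hx
      have h7 := (hA1m x h5).2.1
      refine Finset.mem_filter.mpr ⟨h7, ?_⟩
      by_contra h8
      rw [not_lt] at h8
      exact h6 (Finset.mem_filter.mpr ⟨h7, h8⟩)
    have h5 : ((A1 \ S i).card : ℝ) ≤ ρ * A.card :=
      le_trans (by exact_mod_cast Finset.card_le_card h4) h3.le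
    have h6 : ((A1 ∩ S i).card : ℝ) + (A1 \ S i).card = A1.card := by
      exact_mod_cast Finset.card_inter_add_card_sdiff A1 (S i)
    have h7 : ρ * (A.card : ℝ) ≤ ρ * (8 * A1.card) := mul_le_mul_of_nonneg_left hA1c hρ.le
    linarith
  obtain ⟨Z, hZΓ, W, hWA1, hWne, hZc, hWS, hWlog⟩ :=
    hent V (Fin k) Γ A1 S (8 * ρ) (by positivity) hA1ne hS
  obtain ⟨a0, ha0⟩ := exists_fiber e W a
  set X0 := W.filter fun x => a x = a0 with hX0
  have hkp : (0 : ℝ) < k := by
    have : 0 < k := Fin.pos e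
    exact_mod_cast this
  have hWp : (0 : ℝ) < W.card := by exact_mod_cast hWne.card_pos
  have hX0p : (0 : ℝ) < X0.card := lt_of_lt_of_le (div_pos hWp hkp) ha0
  have hX0ne : X0.Nonempty := by
    rw [← Finset.card_pos]
    exact_mod_cast hX0p
  have hX0W : X0 ⊆ W := Finset.filter_subset _ _
  have hX0m : ∀ x ∈ X0, x ∈ A1 ∧ a x = a0 := fun x hx =>
    ⟨hWA1 (hX0W hx), (Finset.mem_filter.mp hx).2⟩
  have hΓc : (Γ.card : ℝ) ≤ (pal c U).card := by
    exact_mod_cast Finset.card_le_card (Finset.filter_subset _ _)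
  refine ⟨B0, hB0B, b, X0, fun x hx => (hA1m x (hX0m x hx).1).2.1, a0, Z,
    hZΓ.trans (Finset.filter_subset _ _), hX0ne, hmB, ?_, hb, ?_, ?_, ?_, ?_, ?_, ?_⟩
  · -- the logarithm
    have h1 : Real.log (W.card / k) ≤ Real.log X0.card :=
      Real.log_le_log (div_pos hWp hkp) ha0
    rw [Real.log_div hWp.ne' hkp.ne'] at h1
    have h2 : Real.log (A.card / 8) ≤ Real.log A1.card :=
      Real.log_le_log (div_pos hAp (by norm_num)) (by linarith)
    rw [Real.log_div hAp.ne' (by norm_num)] at h2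
    have h3 : Real.log 8 < 3 := by
      have h4 : (8 : ℝ) = 2 ^ 3 := by norm_num
      rw [h4, Real.log_pow]
      have h5 := Real.log_two_lt_d9
      push_cast
      linarith
    have h4 : √(8 * ρ) ≤ 3 * √ρ := by
      have h5 : √(8 * ρ) ≤ √(3 ^ 2 * ρ) := Real.sqrt_le_sqrt (by linarith)
      have h6 : √((3 : ℝ) ^ 2 * ρ) = 3 * √ρ := by
        rw [Real.sqrt_mul (by norm_num), Real.sqrt_sq (by norm_num)]
      exact h5.trans h6.le
    have h5 : 3 * √(8 * ρ) * (Γ.card : ℝ) ≤ 9 * √ρ * (pal c U).card := by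
      calc 3 * √(8 * ρ) * (Γ.card : ℝ) ≤ 3 * √(8 * ρ) * (pal c U).card :=
            mul_le_mul_of_nonneg_left hΓc (by positivity)
        _ ≤ 3 * (3 * √ρ) * (pal c U).card :=
            mul_le_mul_of_nonneg_right (by linarith) (Nat.cast_nonneg _)
        _ = 9 * √ρ * (pal c U).card := by ring
    linarith
  · intro x hx
    obtain ⟨h1, h2⟩ := hX0m x hx
    rw [← h2]
    exact ha x (hA1A0 h1)
  · intro x hx
    obtain ⟨-, h2, -, h4, -⟩ := hA1m x (hX0m x hx).1
    by_contra h5
    rw [not_le] at h5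
    exact h4 (Finset.mem_filter.mpr ⟨h2, h5⟩)
  · intro x hx
    obtain ⟨-, h2, -, -, h4⟩ := hA1m x (hX0m x hx).1
    by_contra h5
    rw [not_le] at h5
    exact h4 (Finset.mem_filter.mpr ⟨h2, h5⟩)
  · calc (Z.card : ℝ) ≤ 2 * (8 * ρ) * Γ.card := hZc
      _ ≤ 2 * (8 * ρ) * (pal c U).card := mul_le_mul_of_nonneg_left hΓc (by positivity)
      _ = 16 * ρ * (pal c U).card := by ring
  · intro i hi hδi x hx
    obtain ⟨h1, h2⟩ := Finset.mem_sdiff.mp hi
    have h3 : i ∈ Γ \ Z := Finset.mem_sdiff.mpr ⟨Finset.mem_filter.mpr ⟨h1, hδi⟩, h2⟩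
    have h4 := (Finset.mem_filter.mp (hWS i h3 (hX0W hx))).2
    rw [al_inter e B x ((Finset.filter_subset _ _).trans hB0B)]
    exact le_trans (mul_le_mul_of_nonneg_left hδi hq.le) h4
  · intro x hx
    obtain ⟨h1, h2⟩ := hX0m x hx
    obtain ⟨h3, h4, h5, -, -⟩ := hA1m x h1
    have h6 : ((B0.filter fun y => R x y).card : ℝ) ≤ √ρ * B0.card := by
      by_contra h7
      rw [not_le] at h7
      exact h5 (Finset.mem_filter.mpr ⟨h4, h7⟩)
    have hax := ha x h3
    rw [h2] at hax
    have h7 := rob_right hrob hρB (hnbA x a0)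
      (le_trans (mul_le_mul_of_nonneg_right hρs hAp.le) hax)
    have h8 : (B0.filter fun y =>
        ¬ (q * t * B.card ≤ ((al c e B x ∩ nb c B (b y) y).card : ℝ) ∧
          q * t * A.card ≤ ((nb c A a0 x ∩ al c e A y).card : ℝ))) ⊆
        (B0.filter fun y => R x y) ∪ B.filter fun y =>
          (((nb c A a0 x).filter fun z => c z y = e).card : ℝ) < q * (nb c A a0 x).card := by
      intro y hy
      obtain ⟨hy1, hy2⟩ := Finset.mem_filter.mp hy
      rw [not_and_or, not_le, not_le] at hy2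
      rcases hy2 with hy2 | hy2
      · refine Finset.mem_union_left _ (Finset.mem_filter.mpr ⟨hy1, ?_⟩)
        rw [al_inter e B x (hnbB y (b y))] at hy2
        refine lt_of_lt_of_le hy2 ?_
        rw [mul_assoc]
        exact mul_le_mul_of_nonneg_left (hb y hy1) hq.le
      · refine Finset.mem_union_right _ (Finset.mem_filter.mpr ⟨hB0B hy1, ?_⟩)
        rw [inter_al hsym e A y (hnbA x a0)] at hy2
        refine lt_of_lt_of_le hy2 ?_
        rw [mul_assoc]
        exact mul_le_mul_of_nonneg_left hax hq.le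
    have h9 := (Finset.card_le_card h8).trans (Finset.card_union_le _ _)
    have h10 : ((B0.filter fun y =>
        ¬ (q * t * B.card ≤ ((al c e B x ∩ nb c B (b y) y).card : ℝ) ∧
          q * t * A.card ≤ ((nb c A a0 x ∩ al c e A y).card : ℝ))).card : ℝ) ≤
        ((B0.filter fun y => R x y).card : ℝ) + ((B.filter fun y =>
          (((nb c A a0 x).filter fun z => c z y = e).card : ℝ) <
            q * (nb c A a0 x).card).card : ℝ) := by
      exact_mod_cast h9
    have h11 : ρ * (B.card : ℝ) ≤ √ρ * B0.card := by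
      have h12 : ρ * 4 ≤ √ρ := by nlinarith
      calc ρ * (B.card : ℝ) ≤ ρ * (4 * B0.card) := mul_le_mul_of_nonneg_left hmB hρ.le
        _ = ρ * 4 * B0.card := by ring
        _ ≤ √ρ * B0.card := mul_le_mul_of_nonneg_right h12 hB0p.le
    linarith

end Main

end Pool.Agent.EGF.H80
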