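import Pool.Agent.EGF.StmtsU

/-! Squad EGF, row UBA (helper80). -/

set_option autoImplicit false

open Finset

namespace Pool.Agent.EGF.H80

/-- **Row UBA** -/
theorem uba (h1 : UpmStmt) : UbaStmt := by
  intro X Y _ _ A B I f E d κ β hbin hE hd hsat hIB hprb hκ S hS ν α hα hν
  have hsat' : SatF B A (fun b a => f a b) E d := by
    intro B' hB' A' hA' hb ha
    rw [Finset.sum_comm]
    have h := hsat A' hA' B' hB' ha hb
    rw [mul_comm (B'.card : ℝ) (A'.card : ℝ)]
    exact h
  have hbin' : Bin (fun (b : Y) (a : X) => f a b) := fun b a => hbin a b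
  set n : ℝ := ∑ a ∈ A, ν a with hn
  have hn0 : 0 ≤ n := Finset.sum_nonneg fun a ha => (hν a ha).1
  set g : Y → ℝ := fun b => ∑ a ∈ A, ν a * f a b with hg
  have hg1 : ∀ b, g b ≤ n := by
    intro b
    refine Finset.sum_le_sum fun a ha => ?_
    rcases hbin a b with h | h
    · rw [h, mul_zero]; exact (hν a ha).1
    · rw [h, mul_one]
  set Bad : Finset Y := S.filter (fun b => d * n + E * α < g b) with hBad
  have hBadc : (Bad.card : ℝ) < E := by
    refine h1 Y X B A (fun b a => f a b) E d hbin' hE hd hsat' ν α hα hν Bad ?_ ?_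
    · exact (Finset.filter_subset _ _).trans (hS.trans hIB)
    · intro b hb
      exact (Finset.mem_filter.mp hb).2
  have hIne : I.Nonempty := by
    rcases Finset.eq_empty_or_nonempty I with h | h
    · exfalso
      have := hprb.2
      rw [h, Finset.sum_empty] at this
      exact zero_ne_one this
    · exact h
  have hκ0 : 0 ≤ κ := by
    obtain ⟨b, hb⟩ := hIne
    exact (hprb.1 b hb).trans (hκ b hb)
  have hβ0 : ∀ b ∈ S, 0 ≤ β b := fun b hb => hprb.1 b (hS hb)
  have hβs : ∑ b ∈ S, β b ≤ 1 := by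
    rw [← hprb.2]
    exact Finset.sum_le_sum_of_subset_of_nonneg hS fun b hb _ => hprb.1 b hb
  have hβs0 : 0 ≤ ∑ b ∈ S, β b := Finset.sum_nonneg hβ0
  have hc0 : 0 ≤ d * n + E * α := add_nonneg (mul_nonneg hd hn0) (mul_nonneg hE.le hα)
  have hpt : ∀ b ∈ S, β b * g b ≤ β b * (d * n + E * α) +
      (if d * n + E * α < g b then κ * n else 0) := by
    intro b hb
    split_ifs with h
    · have h2 : β b * g b ≤ κ * n :=
        mul_le_mul (hκ b (hS hb)) (hg1 b) (hc0.trans h.le) hκ0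
      have h3 : 0 ≤ β b * (d * n + E * α) := mul_nonneg (hβ0 b hb) hc0
      linarith
    · rw [add_zero]
      exact mul_le_mul_of_nonneg_left (not_lt.mp h) (hβ0 b hb)
  have hsum : ∑ b ∈ S, β b * g b ≤ (d * n + E * α) * ∑ b ∈ S, β b + Bad.card * (κ * n) := by
    refine (Finset.sum_le_sum hpt).trans (le_of_eq ?_)
    rw [Finset.sum_add_distrib, ← Finset.sum_mul, ← Finset.sum_filter, Finset.sum_const,
      nsmul_eq_mul, mul_comm]
  have h4 : (Bad.card : ℝ) * (κ * n) ≤ E * (κ * n) :=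
    mul_le_mul_of_nonneg_right hBadc.le (mul_nonneg hκ0 hn0)
  have h5 : E * α * ∑ b ∈ S, β b ≤ E * α * 1 :=
    mul_le_mul_of_nonneg_left hβs (mul_nonneg hE.le hα)
  show ∑ b ∈ S, β b * g b ≤ d * (n * ∑ b ∈ S, β b) + E * α + E * κ * n
  nlinarith [hsum, h4, h5]

end Pool.Agent.EGF.H80
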